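import Pool.Agent.H42.PB.Ext

/-!
# Claims hold on all large sub-events

If a claim holds in a class, then it holds on all sub-events of relative probability at least `ϖ`,
and, more generally, at least `g J`, where `g` does not decay exponentially.
-/

set_option autoImplicit false

namespace Pool.PB

open Finset Real
open Pool.Agent.H49.Ent Pool.Agent.H32.Dense Pool.STK Pool.KA Pool.K2S

variable {m : ℕ}

/-- `g` does not decay exponentially. -/
def Sbx (g : ℕ → ℝ) : Prop := ∀ δ : ℝ, 0 < δ → ∃ J₀ : ℕ, ∀ J ≥ J₀, Real.exp (-(δ * J)) ≤ g J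

theorem sbx_const {ϖ : ℝ} (hϖ : 0 < ϖ) : Sbx (fun _ => ϖ) := by
  intro δ hδ
  obtain ⟨J₀, hJ₀⟩ := exists_nat_ge (-Real.log ϖ / δ)
  refine ⟨J₀, fun J hJ => ?_⟩
  have h1 : -Real.log ϖ / δ ≤ J := hJ₀.trans (by exact_mod_cast hJ)
  rw [div_le_iff₀ hδ] at h1
  calc Real.exp (-(δ * J)) ≤ Real.exp (Real.log ϖ) := Real.exp_le_exp.2 (by linarith)
    _ = ϖ := Real.exp_log hϖ

/-- The list is stable on large sub-events of stable events. -/
theorem sb_sub {L : PList m} {J : ℕ} {F : Fam m J} {κ κ' : ℝ} {A B : F.Ω → Prop}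
    (hs : L.Sb F (κ + κ') A) (hB : Sub B A) (hP : Real.exp (-(κ' * J)) * Pe F.p A ≤ Pe F.p B) :
    L.Sb F κ B := by
  intro i
  rcases hs i with h | h
  · exact Or.inl (L.her J F i A B hB h)
  · refine Or.inr fun C hC hPC => h C (hC.trans hB) ?_
    refine le_trans ?_ hPC
    refine le_trans ?_ (mul_le_mul_of_nonneg_left hP (Real.exp_pos _).le)
    rw [← mul_assoc, ← Real.exp_add]
    refine mul_le_mul_of_nonneg_right (Real.exp_le_exp.2 ?_) (Pe_nonneg F.isLaw A)
    have : -(κ * (J : ℝ)) + -(κ' * J) = -((κ + κ') * J) := by ring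
    rw [this]

/-- **A claim holds on all sub-events of relative probability at least `g J`**, if `g` does not
decay exponentially. -/
theorem Clp.evg {S : PCl m} {Φ : Stat m} (hc : Clp S Φ) {g : ℕ → ℝ} (hg : Sbx g) :
    Clp S (fun J F A => ∀ B : F.Ω → Prop, Sub B A → g J * Pe F.p A ≤ Pe F.p B → Φ J F B) := by
  induction hc with
  | base τ hτ J₁ h =>
    obtain ⟨J₀, hJ₀⟩ := hg (τ / 2) (half_pos hτ)
    refine Clp.base (τ / 2) (half_pos hτ) (max J₁ J₀) fun J hJ F A hA B hB hP => ?_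
    refine h J ((le_max_left _ _).trans hJ) F B ?_
    refine S.mono (by linarith) (S.res (half_pos hτ).le hA hB ?_)
    exact le_trans (mul_le_mul_of_nonneg_right (hJ₀ J ((le_max_right _ _).trans hJ))
      (Pe_nonneg F.isLaw A)) hP
  | step L h ih =>
    refine Clp.step L fun κ hκ => ?_
    obtain ⟨J₀, hJ₀⟩ := hg (κ / 2) (half_pos hκ)
    refine Clp.mono (J₂ := J₀) (ih (κ / 2) (half_pos hκ)) fun J hJ F A h1 hS B hB hP => ?_
    refine h1 B hB hP (sb_sub (κ' := κ / 2) ?_ hB ?_)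
    · rw [add_halves]
      exact hS
    · exact le_trans (mul_le_mul_of_nonneg_right (hJ₀ J hJ) (Pe_nonneg F.isLaw A)) hP

/-- **A claim holds on all sub-events of relative probability at least `ϖ`.** -/
theorem Clp.ev {S : PCl m} {Φ : Stat m} (hc : Clp S Φ) {ϖ : ℝ} (hϖ : 0 < ϖ) :
    Clp S (fun J F A => ∀ B : F.Ω → Prop, Sub B A → ϖ * Pe F.p A ≤ Pe F.p B → Φ J F B) :=
  hc.evg (sbx_const hϖ)

/-- The same for the large events of the families of a class. -/
theorem Clg.evg {S : FCl m} {Φ : Stat m} (hc : Clg S Φ) {g : ℕ → ℝ} (hg : Sbx g) :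
    Clg S (fun J F A => ∀ B : F.Ω → Prop, Sub B A → g J * Pe F.p A ≤ Pe F.p B → Φ J F B) :=
  clg_of_clp ((clp_of_clg hc).evg hg)

theorem Clg.ev {S : FCl m} {Φ : Stat m} (hc : Clg S Φ) {ϖ : ℝ} (hϖ : 0 < ϖ) :
    Clg S (fun J F A => ∀ B : F.Ω → Prop, Sub B A → ϖ * Pe F.p A ≤ Pe F.p B → Φ J F B) :=
  hc.evg (sbx_const hϖ)

end Pool.PB
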