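import Pool.Agent.H51.S6.Sel

/-!
# Base velocities with a positive slope of the action

A monotone function on the rationals of `[0, 1]` which grows at most with slope one and which is at
least `κ q` near zero has a value and a positive slope at points arbitrarily close to zero; the set
of these points has positive measure in every interval `(0, ε)`, so a given null set can be avoided
in addition.
-/

set_option autoImplicit false

namespace Pool.Sel51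

open MeasureTheory Set
open scoped ENNReal

variable {f : ℚ → ℝ}

/-- The points of positive slope in `(0, ε)` outside a null set. -/
theorem slp_small_off (hf : ∀ q q' : ℚ, 0 ≤ q → q ≤ q' → q' ≤ 1 → f q ≤ f q')
    (hl : ∀ q q' : ℚ, 0 ≤ q → q ≤ q' → q' ≤ 1 → f q' - f q ≤ q' - q)
    (hp : ∀ e : ℝ, 0 < e → ∃ q : ℚ, 0 < q ∧ q ≤ 1 ∧ (q : ℝ) < e ∧ f 0 < f q)
    {N : Set ℝ} (hN : volume N = 0) {ε : ℝ} (hε : 0 < ε) :
    ∃ x a₀ α : ℝ, 0 < x ∧ x < ε ∧ x ∉ N ∧ 0 < α ∧ Slp f x a₀ α := by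
  obtain ⟨A, -, hA, hv⟩ := act_dens hf hl
  obtain ⟨q, hq0, hq1, hqe, hq⟩ := hp ε hε
  have h1 : volume (A ∩ Ioo 0 (q : ℝ)) ≠ 0 := by
    intro h0
    have h2 := hv q hq0 hq1
    rw [h0] at h2
    have h3 : (0 : ℝ≥0∞) < ENNReal.ofReal (f q - f 0) := ENNReal.ofReal_pos.2 (by linarith)
    exact absurd h2 (not_le.2 h3)
  have h2 : volume ((A ∩ Ioo 0 (q : ℝ)) \ N) ≠ 0 := by
    rw [measure_sdiff_null hN]
    exact h1
  obtain ⟨x, hx⟩ := nonempty_of_measure_ne_zero h2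
  obtain ⟨-, -, v, s, hs, hsl⟩ := hA x hx.1.1
  exact ⟨x, v, s, hx.1.2.1, hx.1.2.2.trans hqe, hx.2, hs, hsl⟩

/-- **Good base velocities.** `κ q ≤ f q` on `(0, q₀]` and `f 0 = 0`. -/
theorem slp_small (hf : ∀ q q' : ℚ, 0 ≤ q → q ≤ q' → q' ≤ 1 → f q ≤ f q')
    (hl : ∀ q q' : ℚ, 0 ≤ q → q ≤ q' → q' ≤ 1 → f q' - f q ≤ q' - q) (h0 : f 0 = 0)
    {κ q₀ : ℝ} (hκ : 0 < κ) (hq₀ : 0 < q₀)
    (hlow : ∀ q : ℚ, 0 < q → (q : ℝ) ≤ q₀ → κ * q ≤ f q)
    {N : Set ℝ} (hN : volume N = 0) {ε : ℝ} (hε : 0 < ε) :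
    ∃ x a₀ α : ℝ, 0 < x ∧ x < ε ∧ x ∉ N ∧ 0 < α ∧ Slp f x a₀ α := by
  refine slp_small_off hf hl (fun e he => ?_) hN hε
  obtain ⟨q, h1, h2⟩ := exists_rat_btwn (show (0 : ℝ) < min (min e q₀) 1 from
    lt_min (lt_min he hq₀) one_pos)
  have h3 : (q : ℝ) < e := h2.trans_le ((min_le_left _ _).trans (min_le_left _ _))
  have h4 : (q : ℝ) < q₀ := h2.trans_le ((min_le_left _ _).trans (min_le_right _ _))
  have h5 : (q : ℝ) < 1 := h2.trans_le (min_le_right _ _)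
  have h6 : (0 : ℚ) < q := by exact_mod_cast h1
  refine ⟨q, h6, by exact_mod_cast h5.le, h3, ?_⟩
  rw [h0]
  have h7 : 0 < κ * q := mul_pos hκ h1
  exact h7.trans_le (hlow q h6 h4.le)

/-- The same with `κ q ≤ f q` required at the rationals `0 ≤ q ≤ q₀` and without an exceptional
set. The slope is at most one and the value is between zero and `x`. -/
theorem slp_small' (hf : ∀ q q' : ℚ, 0 ≤ q → q ≤ q' → q' ≤ 1 → f q ≤ f q')
    (hl : ∀ q q' : ℚ, 0 ≤ q → q ≤ q' → q' ≤ 1 → f q' - f q ≤ q' - q) (h0 : f 0 = 0)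
    {κ q₀ : ℝ} (hκ : 0 < κ) (hq₀ : 0 < q₀)
    (hlow : ∀ q : ℚ, 0 ≤ q → (q : ℝ) ≤ q₀ → κ * q ≤ f q) {ε : ℝ} (hε : 0 < ε) :
    ∃ x a₀ α : ℝ, 0 < x ∧ x < ε ∧ 0 < α ∧ Slp f x a₀ α := by
  obtain ⟨x, a₀, α, h1, h2, -, h3, h4⟩ := slp_small hf hl h0 hκ hq₀
    (fun q hq hq' => hlow q hq.le hq') (N := ∅) measure_empty hε
  exact ⟨x, a₀, α, h1, h2, h3, h4⟩

/-- The slope of a function which grows at most with slope `L` is at most `L`. -/
theorem Slp.le_lip {x v s L : ℝ} (h : Slp f x v s) (hx0 : 0 < x) (hx1 : x < 1)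
    (hl : ∀ q q' : ℚ, 0 ≤ q → q ≤ q' → q' ≤ 1 → f q' - f q ≤ L * (q' - q)) : s ≤ L := by
  by_contra hcon
  push Not at hcon
  obtain ⟨e, he⟩ : ∃ e : ℝ, e = (s - L) / 4 := ⟨_, rfl⟩
  have he0 : 0 < e := by rw [he]; linarith
  obtain ⟨δ, hδ, h1⟩ := h e he0
  obtain ⟨r, hr0, hr1, hr2, hr3⟩ : ∃ r : ℝ, 0 < r ∧ r < δ ∧ r < x ∧ r < 1 - x := by
    refine ⟨min δ (min x (1 - x)) / 2, ?_, ?_, ?_, ?_⟩
    · have : 0 < min δ (min x (1 - x)) := lt_min hδ (lt_min hx0 (by linarith))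
      linarith
    · have h2 := min_le_left δ (min x (1 - x))
      linarith
    · have h2 := (min_le_right δ (min x (1 - x))).trans (min_le_left _ _)
      have h3 : 0 < min δ (min x (1 - x)) := lt_min hδ (lt_min hx0 (by linarith))
      linarith
    · have h2 := (min_le_right δ (min x (1 - x))).trans (min_le_right _ _)
      have h3 : 0 < min δ (min x (1 - x)) := lt_min hδ (lt_min hx0 (by linarith))
      linarith
  -- a rational in `(x - r, x - r / 2)` and a rational in `(x + r / 2, x + r)`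
  obtain ⟨p, hp1, hp2⟩ := exists_rat_btwn (show x - r < x - r / 2 by linarith)
  obtain ⟨q, hq1, hq2⟩ := exists_rat_btwn (show x + r / 2 < x + r by linarith)
  have e1 := h1 p (by rw [abs_lt]; constructor <;> linarith)
  have e2 := h1 q (by rw [abs_lt]; constructor <;> linarith)
  rw [abs_of_neg (show (p : ℝ) - x < 0 by linarith)] at e1
  rw [abs_of_pos (show 0 < (q : ℝ) - x by linarith)] at e2
  have e3 := (abs_le.1 e1).2
  have e4 := (abs_le.1 e2).1
  have hpq : (p : ℝ) ≤ q := by linarith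
  have hp0 : (0 : ℝ) ≤ p := by linarith
  have hq1' : (q : ℝ) ≤ 1 := by linarith
  have e5 := hl p q (by exact_mod_cast hp0) (by exact_mod_cast hpq) (by exact_mod_cast hq1')
  have hs : s = L + 4 * e := by rw [he]; ring
  have hd : r ≤ (q : ℝ) - p := by linarith
  have e6 : s * ((q : ℝ) - p) - L * ((q : ℝ) - p) = 4 * e * ((q : ℝ) - p) := by
    rw [hs]; ring
  nlinarith

end Pool.Sel51
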